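import Pool.Agent.Helper62.BX.Stm

/-!
# X_Free: the linear coefficient is free
-/

set_option autoImplicit false
set_option linter.unusedSectionVars false

open Polynomial NumberField

namespace Pool.Agent.Helper36.BX

open Pool.Agent.Helper62.BX

section frac

variable {A F : Type} [CommRing A] [IsDomain A] [Field F] [Algebra A F] [IsFractionRing A F]

/-- the map to the dual numbers -/
noncomputable def dn (D : Derivation ℤ A A) : A →+* TrivSqZeroExt F F where
  toFun a := (TrivSqZeroExt.inl (algebraMap A F a) + TrivSqZeroExt.inr (algebraMap A F (D a)))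
  map_one' := by
    ext
    · simp only [TrivSqZeroExt.fst_add, TrivSqZeroExt.fst_inl, TrivSqZeroExt.fst_inr, add_zero,
        map_one, TrivSqZeroExt.fst_one]
    · simp only [TrivSqZeroExt.snd_add, TrivSqZeroExt.snd_inl, TrivSqZeroExt.snd_inr, zero_add,
        Derivation.map_one_eq_zero, map_zero, TrivSqZeroExt.snd_one]
  map_mul' x y := by
    ext
    · simp only [TrivSqZeroExt.fst_add, TrivSqZeroExt.fst_inl, TrivSqZeroExt.fst_inr, add_zero,
        map_mul, TrivSqZeroExt.fst_mul]
    · simp only [TrivSqZeroExt.snd_add, TrivSqZeroExt.snd_inl, TrivSqZeroExt.snd_inr, zero_add,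
        TrivSqZeroExt.snd_mul, TrivSqZeroExt.fst_add, TrivSqZeroExt.fst_inl,
        TrivSqZeroExt.fst_inr, add_zero, Derivation.leibniz, map_add, smul_eq_mul, map_mul,
        op_smul_eq_smul]
  map_zero' := by
    ext
    · simp only [TrivSqZeroExt.fst_add, TrivSqZeroExt.fst_inl, TrivSqZeroExt.fst_inr, add_zero,
        map_zero, TrivSqZeroExt.fst_zero]
    · simp only [TrivSqZeroExt.snd_add, TrivSqZeroExt.snd_inl, TrivSqZeroExt.snd_inr, zero_add,
        map_zero, TrivSqZeroExt.snd_zero]
  map_add' x y := by
    ext
    · simp only [TrivSqZeroExt.fst_add, TrivSqZeroExt.fst_inl, TrivSqZeroExt.fst_inr, add_zero,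
        map_add]
    · simp only [TrivSqZeroExt.snd_add, TrivSqZeroExt.snd_inl, TrivSqZeroExt.snd_inr, zero_add,
        map_add]

theorem dn_fst (D : Derivation ℤ A A) (a : A) : (dn (F := F) D a).fst = algebraMap A F a := by
  show (TrivSqZeroExt.inl (algebraMap A F a) + TrivSqZeroExt.inr (algebraMap A F (D a)) :
    TrivSqZeroExt F F).fst = _
  rw [TrivSqZeroExt.fst_add, TrivSqZeroExt.fst_inl, TrivSqZeroExt.fst_inr, add_zero]

theorem dn_snd (D : Derivation ℤ A A) (a : A) :
    (dn (F := F) D a).snd = algebraMap A F (D a) := by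
  show (TrivSqZeroExt.inl (algebraMap A F a) + TrivSqZeroExt.inr (algebraMap A F (D a)) :
    TrivSqZeroExt F F).snd = _
  rw [TrivSqZeroExt.snd_add, TrivSqZeroExt.snd_inl, TrivSqZeroExt.snd_inr, zero_add]

theorem ext_frac (D : Derivation ℤ A A) :
    ∃ D' : Derivation ℤ F F, ∀ a, D' (algebraMap A F a) = algebraMap A F (D a) := by
  have hu : ∀ y : nonZeroDivisors A, IsUnit (dn (F := F) D y) := by
    intro y
    rw [TrivSqZeroExt.isUnit_iff_isUnit_fst, dn_fst]
    exact IsUnit.mk0 _ (IsFractionRing.to_map_ne_zero_of_mem_nonZeroDivisors y.2)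
  let h : F →+* TrivSqZeroExt F F := IsLocalization.lift (M := nonZeroDivisors A) hu
  have h1 : ∀ a, h (algebraMap A F a) = dn (F := F) D a := fun a => IsLocalization.lift_eq hu a
  have h2 : (TrivSqZeroExt.fstHom F F F).toRingHom.comp h = RingHom.id F := by
    refine IsLocalization.ringHom_ext (nonZeroDivisors A) (RingHom.ext fun a => ?_)
    show (h (algebraMap A F a)).fst = algebraMap A F a
    rw [h1, dn_fst]
  have h3 : ∀ x, (h x).fst = x := fun x => congrArg (fun φ : F →+* F => φ x) h2
  let L : F →+ F := { toFun := fun x => (h x).snd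
                      map_zero' := by rw [map_zero, TrivSqZeroExt.snd_zero]
                      map_add' := fun x y => by rw [map_add, TrivSqZeroExt.snd_add] }
  refine ⟨Derivation.mk' L.toIntLinearMap fun x y => ?_, fun a => ?_⟩
  · show (h (x * y)).snd = x • (h y).snd + y • (h x).snd
    rw [map_mul, TrivSqZeroExt.snd_mul, h3, h3, op_smul_eq_smul]
  · show (h (algebraMap A F a)).snd = algebraMap A F (D a)
    rw [h1, dn_snd]

open scoped Differential

theorem gen {Ω : Type} [CharZero A] [Field Ω] [Algebra F Ω] [Algebra A Ω] [IsScalarTower A F Ω]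
    [IsAlgClosed Ω] [Algebra.IsAlgebraic F Ω] (D₀ : Derivation ℤ A A) (f : A[X])
    (hD₀ : ∀ i, D₀ (f.coeff i) = (X : A[X]).coeff i) :
    ((derivative f).map (algebraMap A F)).Separable ∧
    ∀ a b : Ω, aeval a (derivative f) = 0 → aeval b (derivative f) = 0 →
      aeval a f = aeval b f → a = b := by
  have : CharZero F := charZero_of_injective_algebraMap (IsFractionRing.injective A F)
  obtain ⟨D, hD⟩ := ext_frac (F := F) D₀
  let _ : Differential F := ⟨D⟩
  obtain ⟨p, hpf⟩ : ∃ p : F[X], p = f.map (algebraMap A F) := ⟨_, rfl⟩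
  have hDp : ∀ i, D (p.coeff i) = (X : F[X]).coeff i := by
    intro i
    rw [hpf, Polynomial.coeff_map, hD, hD₀, ← Polynomial.coeff_map, Polynomial.map_X]
  have hp : Differential.mapCoeffs p = X := by
    ext i
    rw [Differential.coeff_mapCoeffs]
    exact hDp i
  have hp' : Differential.mapCoeffs (derivative p) = 1 := by
    ext i
    rw [Differential.coeff_mapCoeffs, Polynomial.coeff_derivative]
    show D (p.coeff (i + 1) * ((i : F) + 1)) = _
    have h3 : D ((i : F) + 1) = 0 := by
      have h4 : ((i : F) + 1) = ((i + 1 : ℕ) : F) := by push_cast; rfl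
      rw [h4]
      exact D.map_natCast _
    rw [Derivation.leibniz, hDp, h3, smul_zero, zero_add, Polynomial.coeff_X,
      Polynomial.coeff_one]
    by_cases hi : i = 0
    · subst hi
      simp
    · rw [if_neg hi, if_neg (by omega), smul_zero]
  have key : ∀ (B : IntermediateField F Ω) [FiniteDimensional F B] (x : B),
      aeval x (derivative p) = 0 → (aeval x p)′ = x := by
    intro B _ x hx
    rw [Differential.deriv_aeval_eq, hx, hp, aeval_X, zero_mul, add_zero]
  have key' : ∀ x : Ω, aeval x (derivative p) = 0 → aeval x (derivative (derivative p)) ≠ 0 := by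
    intro x hx hx2
    have hfd : FiniteDimensional F (IntermediateField.adjoin F {x}) :=
      IntermediateField.adjoin.finiteDimensional (Algebra.IsIntegral.isIntegral x)
    let x' : IntermediateField.adjoin F {x} := ⟨x, IntermediateField.mem_adjoin_simple_self F x⟩
    have h1 : aeval x' (derivative p) = 0 := by
      apply (algebraMap (IntermediateField.adjoin F {x}) Ω).injective
      rw [map_zero, ← Polynomial.aeval_algebraMap_apply]
      exact hx
    have h2 : aeval x' (derivative (derivative p)) = 0 := by
      apply (algebraMap (IntermediateField.adjoin F {x}) Ω).injective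
      rw [map_zero, ← Polynomial.aeval_algebraMap_apply]
      exact hx2
    have h3 := Differential.deriv_aeval_eq x' (derivative p)
    rw [h1, h2, hp', map_one, zero_mul, add_zero] at h3
    simp at h3
  refine ⟨?_, ?_⟩
  · have h1 : (derivative f).map (algebraMap A F) = derivative p := by
      rw [hpf]
      exact (derivative_map _ _).symm
    rw [h1, Polynomial.separable_def, Polynomial.isCoprime_iff_aeval_ne_zero_of_isAlgClosed F Ω]
    intro x
    by_cases hx : aeval x (derivative p) = 0
    · exact Or.inr (key' x hx)
    · exact Or.inl hx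
  · intro a b ha hb hab
    have hm : ∀ (x : Ω) (q : A[X]), aeval x (q.map (algebraMap A F)) = aeval x q := fun x q =>
      Polynomial.aeval_map_algebraMap F x q
    have hda : aeval a (derivative p) = 0 := by
      rw [hpf, derivative_map, hm]
      exact ha
    have hdb : aeval b (derivative p) = 0 := by
      rw [hpf, derivative_map, hm]
      exact hb
    have hpab : aeval a p = aeval b p := by
      rw [hpf, hm, hm]
      exact hab
    have hfd : FiniteDimensional F (IntermediateField.adjoin F {a, b}) :=
      IntermediateField.finiteDimensional_adjoin fun x _ => Algebra.IsIntegral.isIntegral x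
    let a' : IntermediateField.adjoin F {a, b} :=
      ⟨a, IntermediateField.subset_adjoin F _ (by simp)⟩
    let b' : IntermediateField.adjoin F {a, b} :=
      ⟨b, IntermediateField.subset_adjoin F _ (by simp)⟩
    have hinj := (algebraMap (IntermediateField.adjoin F {a, b}) Ω).injective
    have h1 : aeval a' (derivative p) = 0 := by
      apply hinj
      rw [map_zero, ← Polynomial.aeval_algebraMap_apply]
      exact hda
    have h2 : aeval b' (derivative p) = 0 := by
      apply hinj
      rw [map_zero, ← Polynomial.aeval_algebraMap_apply]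
      exact hdb
    have h3 : aeval a' p = aeval b' p := by
      apply hinj
      rw [← Polynomial.aeval_algebraMap_apply, ← Polynomial.aeval_algebraMap_apply]
      exact hpab
    have h4 := key _ a' h1
    rw [h3, key _ b' h2] at h4
    exact (congrArg (algebraMap (IntermediateField.adjoin F {a, b}) Ω) h4).symm

end frac

/-- a derivation from a function -/
def mkD {A : Type} [CommRing A] (d : A →+ A) (h : ∀ x y, d (x * y) = x * d y + y * d x) :
    Derivation ℤ A A := Derivation.mk' d.toIntLinearMap h

theorem mkD_apply {A : Type} [CommRing A] (d : A →+ A)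
    (h : ∀ x y, d (x * y) = x * d y + y * d x) (x : A) : mkD d h x = d x := rfl

/-- X9. -/
theorem x_Free : X_Free := by
  intro K _ _ r g hg h f hh hf
  have hι : Function.Injective (MvPolynomial.rename Fin.castSucc :
      Rp K r →ₐ[𝓞 K] Rp K (r + 1)).toRingHom :=
    MvPolynomial.rename_injective _ (Fin.castSucc_injective r)
  have hdeg : f.natDegree = 2 * g + 1 := by
    rw [hf, Polynomial.natDegree_add_eq_left_of_natDegree_lt]
    · rw [Polynomial.natDegree_map_eq_of_injective hι, hh]
    · rw [Polynomial.natDegree_map_eq_of_injective hι, hh]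
      refine ((Polynomial.natDegree_C_mul_le _ _).trans Polynomial.natDegree_X_le).trans_lt
        (by omega)
  have hD₀ : ∀ i, (MvPolynomial.pderiv (Fin.last r)) (f.coeff i) =
      (X : (Rp K (r + 1))[X]).coeff i := by
    intro i
    rw [hf, Polynomial.coeff_add, Polynomial.coeff_C_mul, Polynomial.coeff_map, map_add]
    have h1 : (MvPolynomial.pderiv (Fin.last r)) ((MvPolynomial.rename Fin.castSucc :
        Rp K r →ₐ[𝓞 K] Rp K (r + 1)).toRingHom (h.coeff i)) = 0 := by
      refine MvPolynomial.pderiv_eq_zero_of_notMem_vars ?_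
      intro hmem
      have h2 := MvPolynomial.vars_rename Fin.castSucc (h.coeff i) hmem
      rw [Finset.mem_image] at h2
      obtain ⟨j, -, hj⟩ := h2
      exact (Fin.castSucc_lt_last j).ne hj
    rw [h1, zero_add, Polynomial.coeff_X]
    split_ifs with h2
    · rw [mul_one]
      exact MvPolynomial.pderiv_X_self _
    · rw [mul_zero, map_zero]
  have h3 := gen (F := FractionRing (Rp K (r + 1))) (Ω := Cl K (r + 1))
    (mkD (MvPolynomial.pderiv (R := 𝓞 K) (Fin.last r)).toLinearMap.toAddMonoidHom
      (fun x y => by
        have := (MvPolynomial.pderiv (R := 𝓞 K) (Fin.last r)).leibniz x y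
        exact this)) f hD₀
  exact ⟨hdeg, h3.1, h3.2⟩

end Pool.Agent.Helper36.BX
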